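import Pool.Agent.K1H67.PC.Main

/-!
Consequences: factorizations.
-/

set_option autoImplicit false

namespace Pool.Agent.K1H67.PC

variable {G : Type} [Group G]

/-- `U` has the smallest index among the subgroups which contain `N` and do not contain `M` -/
def Smallest (N M U : Subgroup G) : Prop :=
  N ≤ U ∧ ¬ M ≤ U ∧ ∀ U' : Subgroup G, N ≤ U' → ¬ M ≤ U' → U.index ≤ U'.index

theorem factor [Finite G] (hG : AllMonomial G) (N M : Subgroup G) [N.Normal] [M.Normal]
    (hperf : M ≤ ⁅M, M⁆ ⊔ N) (U : Subgroup G) (hU : Smallest N M U) (H : Subgroup G)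
    (hH : IsCoatom H) : ∀ m ∈ M, ∃ h ∈ H, ∃ u ∈ U, m = h * u := by
  obtain ⟨hNU, hMU, hmin⟩ := hU
  by_contra hcon
  push Not at hcon
  obtain ⟨m0, hm0, hno⟩ := hcon
  obtain ⟨U', hNU', hMU', hle⟩ := main_lt hG N M hperf H hH (G ⧸ U) (by
      intro n hn x
      obtain ⟨g, rfl⟩ := QuotientGroup.mk_surjective x
      change ((n * g : G) : G ⧸ U) = (g : G ⧸ U)
      rw [QuotientGroup.eq]
      apply hNU
      have h1 : (n * g)⁻¹ * g = g⁻¹ * n⁻¹ * g⁻¹⁻¹ := by group
      rw [h1]
      exact (inferInstance : N.Normal).conj_mem _ (N.inv_mem hn) _)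
    {x | ∃ h ∈ H, x = (h : G ⧸ U)} (by
      rintro h hh _ ⟨k, hk, rfl⟩
      exact ⟨h * k, H.mul_mem hh hk, rfl⟩) (by
      intro hall
      obtain ⟨h, hh, he⟩ := hall m0 hm0 ((1 : G) : G ⧸ U) ⟨1, H.one_mem, rfl⟩
      change ((m0 * 1 : G) : G ⧸ U) = (h : G ⧸ U) at he
      rw [mul_one, QuotientGroup.eq] at he
      refine hno h hh (h⁻¹ * m0) ?_ (by group)
      have := U.inv_mem he
      rwa [mul_inv_rev, inv_inv] at this)
  have h1 : Nat.card (G ⧸ U) = U.index := rfl
  have h3 := hmin U' hNU' hMU'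
  omega

theorem not_coatom [Finite G] (hG : AllMonomial G) (N M : Subgroup G) [N.Normal] [M.Normal]
    (hperf : M ≤ ⁅M, M⁆ ⊔ N) (U : Subgroup G) (hU : Smallest N M U) : ¬ IsCoatom U := by
  intro h
  apply hU.2.1
  intro m hm
  obtain ⟨h1, hh1, u, hu, rfl⟩ := factor hG N M hperf U hU U h m hm
  exact U.mul_mem hh1 hu

theorem factor_all [Finite G] (hG : AllMonomial G) (N M : Subgroup G) [N.Normal] [M.Normal]
    (hperf : M ≤ ⁅M, M⁆ ⊔ N) (U : Subgroup G) (hU : Smallest N M U) (H : Subgroup G)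
    (hH : IsCoatom H) (hMH : ¬ M ≤ H) : ∀ g : G, ∃ h ∈ H, ∃ u ∈ U, g = h * u := by
  intro g
  have h1 : H ⊔ M = ⊤ := hH.2 _ (lt_of_le_of_ne le_sup_left (fun h => hMH (by
    rw [h]
    exact le_sup_right)))
  have h2 : g ∈ ((H ⊔ M : Subgroup G) : Set G) := by rw [h1]; trivial
  rw [Subgroup.mul_normal] at h2
  obtain ⟨h, hh, m, hm, rfl⟩ := h2
  obtain ⟨h', hh', u, hu, rfl⟩ := factor hG N M hperf U hU H hH m hm
  exact ⟨h * h', H.mul_mem hh hh', u, hu, by group⟩

/-- the conjugates of a subgroup of smallest index -/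
theorem classes [Finite G] (hG : AllMonomial G) (N M : Subgroup G) [N.Normal] [M.Normal]
    (hperf : M ≤ ⁅M, M⁆ ⊔ N) (K : Subgroup G) (hNK : N ≤ K) (hKM : K ≤ M) (hMK : ¬ M ≤ K)
    (hmin : ∀ K' : Subgroup G, N ≤ K' → K' ≤ M → ¬ M ≤ K' → K.relIndex M ≤ K'.relIndex M) :
    ∃ g : G, ∀ m ∈ M, K.map (MulAut.conj g).toMonoidHom ≠ K.map (MulAut.conj m).toMonoidHom := by
  classical
  by_contra hcon
  push Not at hcon
  have hri : ∀ A B : Subgroup G, A.relIndex B ≠ 0 := fun A B =>
    Subgroup.index_ne_zero_of_finite (H := A.subgroupOf B)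
  have hnorm : ∀ g : G, K.map (MulAut.conj g).toMonoidHom = K →
      g ∈ Subgroup.normalizer (K : Set G) := fun g hg =>
    Subgroup.mem_normalizer_iff_map_conj_eq.2 hg
  -- `G = M N_G(K)`
  have hsup : ∀ g : G, ∃ m ∈ M, m⁻¹ * g ∈ (Subgroup.normalizer (K : Set G)) := by
    intro g
    obtain ⟨m, hm, he⟩ := hcon g
    refine ⟨m, hm, hnorm _ ?_⟩
    have h1 : (MulAut.conj (m⁻¹ * g)).toMonoidHom =
        ((MulAut.conj m⁻¹).toMonoidHom).comp (MulAut.conj g).toMonoidHom := by
      ext x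
      simp [mul_assoc]
    rw [h1, ← Subgroup.map_map, he, Subgroup.map_map]
    have h2 : ((MulAut.conj m⁻¹).toMonoidHom).comp (MulAut.conj m).toMonoidHom =
        MonoidHom.id G := by
      ext x
      simp [mul_assoc]
    rw [h2, Subgroup.map_id]
  -- minimality: subgroups between `K` and `M`
  have hbet : ∀ L : Subgroup G, K < L → L ≤ M → L = M := by
    intro L hKL hLM
    by_contra hne
    have h1 : ¬ M ≤ L := fun h => hne (le_antisymm hLM h)
    have h2 := hmin L (hNK.trans hKL.le) hLM h1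
    have h3 : K.relIndex L * L.relIndex M = K.relIndex M := Subgroup.relIndex_mul_relIndex K L M
      hKL.le hLM
    have h4 : K.relIndex L ≠ 1 := by
      rw [Ne, Subgroup.relIndex_eq_one]
      exact not_le_of_gt hKL
    have h5 : L.relIndex M ≠ 0 := hri _ _
    have h6 : K.relIndex L ≠ 0 := hri _ _
    have h7 : 2 ≤ K.relIndex L := by omega
    have h8 : 0 < L.relIndex M := Nat.pos_of_ne_zero h5
    nlinarith
  -- `M` does not normalize `K`
  have hMn : ¬ M ≤ (Subgroup.normalizer (K : Set G)) := by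
    intro hn
    obtain ⟨x, hxM, hxK⟩ := SetLike.not_le_iff_exists.1 hMK
    have h1 : K ⊔ Subgroup.zpowers x = M := by
      apply hbet
      · refine lt_of_le_of_ne le_sup_left (fun h => hxK ?_)
        rw [h]
        exact (le_sup_right : Subgroup.zpowers x ≤ K ⊔ Subgroup.zpowers x)
          (Subgroup.mem_zpowers x)
      · exact sup_le hKM (by rwa [Subgroup.zpowers_le])
    apply hMK
    refine hperf.trans (sup_le ?_ hNK)
    have hKn : (K.subgroupOf M).Normal :=
      (Subgroup.normal_subgroupOf_iff_le_normalizer hKM).2 hn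
    let π := QuotientGroup.mk' (K.subgroupOf M)
    have hπ : ∀ y : M, π y = 1 ↔ (y : G) ∈ K := by
      intro y
      rw [QuotientGroup.mk'_apply, QuotientGroup.eq_one_iff, Subgroup.mem_subgroupOf]
    have h2 : ((Subgroup.zpowers (π ⟨x, hxM⟩)).comap π).map M.subtype = M := by
      apply hbet
      · refine lt_of_le_of_ne ?_ (fun h => hxK ?_)
        · intro k hk
          refine ⟨⟨k, hKM hk⟩, ?_, rfl⟩
          rw [SetLike.mem_coe, Subgroup.mem_comap, (hπ ⟨k, hKM hk⟩).2 hk]
          exact Subgroup.one_mem _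
        · rw [h]
          refine ⟨⟨x, hxM⟩, ?_, rfl⟩
          rw [SetLike.mem_coe, Subgroup.mem_comap]
          exact Subgroup.mem_zpowers _
      · exact Subgroup.map_subtype_le _
    have h3 : ∀ a : M, ∃ n : ℤ, π ⟨x, hxM⟩ ^ n = π a := by
      intro a
      have h4 : (a : G) ∈ ((Subgroup.zpowers (π ⟨x, hxM⟩)).comap π).map M.subtype := by
        rw [h2]
        exact a.2
      obtain ⟨b, hb, hba⟩ := h4
      have h5 : b = a := Subtype.ext hba
      rw [← h5]
      exact Subgroup.mem_zpowers_iff.1 hb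
    rw [Subgroup.commutator_le]
    intro a ha b hb
    obtain ⟨n, hn'⟩ := h3 ⟨a, ha⟩
    obtain ⟨k, hk'⟩ := h3 ⟨b, hb⟩
    have h4 : π (⟨a, ha⟩ * ⟨b, hb⟩ * ⟨a, ha⟩⁻¹ * ⟨b, hb⟩⁻¹) = 1 := by
      rw [map_mul, map_mul, map_mul, map_inv, map_inv, ← hn', ← hk']
      group
    exact (hπ _).1 h4
  -- index
  have hNG : N ≤ (Subgroup.normalizer (K : Set G)) := hNK.trans Subgroup.le_normalizer
  have hidx : (Subgroup.normalizer (K : Set G)).index ≤ K.relIndex M := by
    let f : M ⧸ K.subgroupOf M → G ⧸ (Subgroup.normalizer (K : Set G)) :=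
      Quotient.map' (fun m : M => (m : G)) (by
        intro a b hab
        rw [QuotientGroup.leftRel_apply] at hab ⊢
        exact Subgroup.le_normalizer hab)
    refine Nat.card_le_card_of_surjective f ?_
    intro y
    obtain ⟨g, rfl⟩ := QuotientGroup.mk_surjective y
    obtain ⟨m, hm, hmg⟩ := hsup g
    refine ⟨QuotientGroup.mk ⟨m, hm⟩, ?_⟩
    change ((m : G) : G ⧸ (Subgroup.normalizer (K : Set G))) = (g : G ⧸ _)
    rw [QuotientGroup.eq]
    exact hmg
  have hS : Smallest N M (Subgroup.normalizer (K : Set G)) := by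
    refine ⟨hNG, hMn, fun U' hNU' hMU' => hidx.trans ?_⟩
    have h1 := hmin (U' ⊓ M) (le_inf hNU' (hNK.trans hKM)) inf_le_right
      (fun h => hMU' (h.trans inf_le_left))
    rw [Subgroup.inf_relIndex_right] at h1
    refine h1.trans ?_
    rw [← Subgroup.relIndex_top_right]
    exact Subgroup.relIndex_le_of_le_right le_top (hri _ _)
  apply not_coatom hG N M hperf (Subgroup.normalizer (K : Set G)) hS
  refine ⟨fun h => hMn (by rw [h]; exact le_top), fun L hL => ?_⟩
  have hML : M ≤ L := by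
    by_contra hML
    have h1 := hS.2.2 L (hNG.trans hL.le) hML
    have h2 : (Subgroup.normalizer (K : Set G)).relIndex L * L.index = (Subgroup.normalizer (K : Set G)).index :=
      Subgroup.relIndex_mul_index hL.le
    have h3 : (Subgroup.normalizer (K : Set G)).relIndex L ≠ 1 := by
      rw [Ne, Subgroup.relIndex_eq_one]
      exact not_le_of_gt hL
    have h4 : L.index ≠ 0 := Subgroup.index_ne_zero_of_finite
    have h5 : (Subgroup.normalizer (K : Set G)).relIndex L ≠ 0 := hri _ _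
    have h6 : 2 ≤ (Subgroup.normalizer (K : Set G)).relIndex L := by omega
    have h7 : 0 < L.index := Nat.pos_of_ne_zero h4
    nlinarith
  rw [eq_top_iff]
  intro g _
  obtain ⟨m, hm, hmg⟩ := hsup g
  have : g = m * (m⁻¹ * g) := by group
  rw [this]
  exact L.mul_mem (hML hm) (hL.le hmg)

end Pool.Agent.K1H67.PC
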