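import Mathlib

/-!
Groups all of whose `P`-characters are monomial: definitions.
-/

set_option autoImplicit false

namespace Pool.Agent.K1H67.PC

variable {G V : Type} [Group G] [AddCommGroup V] [Module ℂ V]

/-- `V` is an irreducible representation -/
def Irred (ρ : Representation ℂ G V) : Prop :=
  Nontrivial V ∧ ∀ S : Submodule ℂ V, (∀ g, ∀ v ∈ S, ρ g v ∈ S) → S = ⊥ ∨ S = ⊤

/-- `V` is isomorphic to a subrepresentation of the permutation representation on the cosets
of `H` -/
def Occurs (H : Subgroup G) (ρ : Representation ℂ G V) : Prop :=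
  ∃ Φ : V →ₗ[ℂ] (G ⧸ H → ℂ), Function.Injective Φ ∧
    ∀ (g : G) (v : V) (x : G ⧸ H), Φ (ρ g v) x = Φ v (g⁻¹ • x)

/-- `V` affords a `P`-character: it occurs in the permutation representation on the cosets of a
maximal subgroup -/
def PChar (ρ : Representation ℂ G V) : Prop := ∃ H : Subgroup G, IsCoatom H ∧ Occurs H ρ

/-- `V` is induced from a representation of degree one of a subgroup `U`: there is a vector `v`
on which `U` acts by scalars, whose images under `G` span `V`, and `dim V = |G : U|` -/
def Monomial (ρ : Representation ℂ G V) : Prop :=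
  ∃ (U : Subgroup G) (v : V), v ≠ 0 ∧ (∀ u ∈ U, ∃ c : ℂ, ρ u v = c • v) ∧
    Submodule.span ℂ (Set.range fun g => ρ g v) = ⊤ ∧ Module.finrank ℂ V = U.index

/-- all `P`-characters of `G` are monomial -/
def AllMonomial (G : Type) [Group G] : Prop :=
  ∀ (V : Type) [AddCommGroup V] [Module ℂ V] [FiniteDimensional ℂ V] (ρ : Representation ℂ G V),
    Irred ρ → PChar ρ → Monomial ρ

end Pool.Agent.K1H67.PC
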