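import Pool.Agent.K1H67.PC.Rep

/-!
The main theorem on groups all of whose `P`-characters are monomial.
-/

set_option autoImplicit false

namespace Pool.Agent.K1H67.PC

section perm

variable {G : Type} [Group G] {Ω : Type} [MulAction G Ω]

/-- the permutation representation on functions -/
def permRep (G Ω : Type) [Group G] [MulAction G Ω] : Representation ℂ G (Ω → ℂ) where
  toFun g := LinearMap.funLeft ℂ ℂ (fun x : Ω => g⁻¹ • x)
  map_one' := by
    ext f x
    simp [LinearMap.funLeft]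
  map_mul' g h := by
    ext f x
    simp [LinearMap.funLeft, mul_smul]

theorem permRep_apply (g : G) (f : Ω → ℂ) (x : Ω) : permRep G Ω g f x = f (g⁻¹ • x) := rfl

/-- sum over the orbits of `M` -/
noncomputable def av (M : Subgroup G) [Fintype M] : (Ω → ℂ) →ₗ[ℂ] (Ω → ℂ) :=
  ∑ m : M, permRep G Ω (m : G)

theorem av_apply (M : Subgroup G) [Fintype M] (f : Ω → ℂ) :
    av M f = ∑ m : M, permRep G Ω (m : G) f := by
  simp [av]

theorem av_M (M : Subgroup G) [Fintype M] (f : Ω → ℂ) (m : G) (hm : m ∈ M) :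
    permRep G Ω m (av M f) = av M f := by
  rw [av_apply, map_sum]
  have : ∀ k : M, permRep G Ω m (permRep G Ω (k : G) f) =
      permRep G Ω (((⟨m, hm⟩ : M) * k : M) : G) f := by
    intro k
    rw [Subgroup.coe_mul, map_mul]
    rfl
  simp only [this]
  exact Equiv.sum_comp (Equiv.mulLeft (⟨m, hm⟩ : M)) (fun k : M => permRep G Ω (k : G) f)

theorem av_inv (M : Subgroup G) [Fintype M] (f : Ω → ℂ)
    (hf : ∀ m ∈ M, permRep G Ω m f = f) : av M f = (Fintype.card M : ℂ) • f := by
  rw [av_apply]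
  have : ∀ k : M, permRep G Ω (k : G) f = f := fun k => hf k k.2
  simp only [this, Finset.sum_const, Finset.card_univ]
  rw [Nat.cast_smul_eq_nsmul]

theorem av_comm (M : Subgroup G) [Fintype M] [M.Normal] (g : G) (f : Ω → ℂ) :
    av M (permRep G Ω g f) = permRep G Ω g (av M f) := by
  rw [av_apply, av_apply, map_sum]
  have : ∀ k : M, permRep G Ω (k : G) (permRep G Ω g f) =
      permRep G Ω g (permRep G Ω ((MulAut.conjNormal g⁻¹ k : M) : G) f) := by
    intro k
    have h1 : ((MulAut.conjNormal g⁻¹ k : M) : G) = g⁻¹ * k * g := by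
      rw [MulAut.conjNormal_apply, inv_inv]
    rw [h1]
    have h2 : (k : G) * g = g * (g⁻¹ * k * g) := by group
    have h3 := congrArg (permRep G Ω) h2
    rw [map_mul, map_mul] at h3
    exact congrArg (fun L : (Ω → ℂ) →ₗ[ℂ] (Ω → ℂ) => L f) h3
  simp only [this]
  exact Equiv.sum_comp (MulAut.conjNormal g⁻¹ : M ≃* M).toEquiv
    (fun k : M => permRep G Ω g (permRep G Ω (k : G) f))

/-- the dimension of the kernel of `av M` -/
theorem finrank_ker [Finite Ω] (M : Subgroup G) [Fintype M] :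
    Module.finrank ℂ (LinearMap.ker (av M : (Ω → ℂ) →ₗ[ℂ] (Ω → ℂ))) +
      Nat.card (MulAction.orbitRel.Quotient M Ω) ≤ Nat.card Ω := by
  classical
  have : Fintype Ω := Fintype.ofFinite Ω
  have : Fintype (MulAction.orbitRel.Quotient M Ω) := Fintype.ofFinite _
  have h1 := LinearMap.finrank_range_add_finrank_ker (av M : (Ω → ℂ) →ₗ[ℂ] (Ω → ℂ))
  rw [Module.finrank_fintype_fun_eq_card] at h1
  let π : Ω → MulAction.orbitRel.Quotient M Ω := Quotient.mk _
  have hπ : ∀ m ∈ M, ∀ x, π (m • x) = π x := by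
    intro m hm x
    apply Quotient.sound
    exact ⟨⟨m, hm⟩, rfl⟩
  let L : (MulAction.orbitRel.Quotient M Ω → ℂ) →ₗ[ℂ] (Ω → ℂ) := LinearMap.funLeft ℂ ℂ π
  have hL : Function.Injective L :=
    LinearMap.funLeft_injective_of_surjective ℂ ℂ π Quotient.mk_surjective
  have h2 : LinearMap.range L ≤ LinearMap.range (av M : (Ω → ℂ) →ₗ[ℂ] (Ω → ℂ)) := by
    rintro _ ⟨f, rfl⟩
    have h3 : av M (L f) = (Fintype.card M : ℂ) • L f := by
      apply av_inv
      intro m hm
      ext x
      rw [permRep_apply]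
      exact congrArg f (hπ m⁻¹ (M.inv_mem hm) x)
    refine ⟨(Fintype.card M : ℂ)⁻¹ • L f, ?_⟩
    rw [map_smul, h3, smul_smul, inv_mul_cancel₀ (by exact_mod_cast Fintype.card_ne_zero),
      one_smul]
  have h4 := Submodule.finrank_mono h2
  rw [LinearMap.finrank_range_of_inj hL, Module.finrank_fintype_fun_eq_card] at h4
  rw [Nat.card_eq_fintype_card, Nat.card_eq_fintype_card]
  omega

end perm

variable {G : Type} [Group G]

theorem main [Finite G] (hG : AllMonomial G) (N M : Subgroup G) [N.Normal] [M.Normal]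
    (hperf : M ≤ ⁅M, M⁆ ⊔ N) (H : Subgroup G) (hH : IsCoatom H)
    (Ω : Type) [Finite Ω] [MulAction G Ω] (hN : ∀ n ∈ N, ∀ x : Ω, n • x = x) (Y : Set Ω)
    (hY : ∀ h ∈ H, ∀ y ∈ Y, h • y ∈ Y) (hYM : ¬ ∀ m ∈ M, ∀ y ∈ Y, m • y ∈ Y) :
    ∃ U : Subgroup G, N ≤ U ∧ ¬ M ≤ U ∧
      U.index + Nat.card (MulAction.orbitRel.Quotient M Ω) ≤ Nat.card Ω := by
  classical
  have : Fintype M := Fintype.ofFinite M
  have hc : (Fintype.card M : ℂ) ≠ 0 := by exact_mod_cast Fintype.card_ne_zero
  -- the vector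
  set e : Ω → ℂ := fun x => if x ∈ Y then 1 else 0 with he
  set w : Ω → ℂ := (Fintype.card M : ℂ) • e - av M e with hw
  have hYH : ∀ h ∈ H, ∀ y, h • y ∈ Y ↔ y ∈ Y := by
    intro h hh y
    refine ⟨fun h1 => ?_, hY h hh y⟩
    have := hY h⁻¹ (H.inv_mem hh) _ h1
    rwa [inv_smul_smul] at this
  have heH : ∀ h ∈ H, permRep G Ω h e = e := by
    intro h hh
    ext x
    rw [permRep_apply, he]
    simp only [hYH h⁻¹ (H.inv_mem hh) x]
  have hwH : ∀ h ∈ H, permRep G Ω h w = w := by
    intro h hh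
    rw [hw, map_sub, map_smul, ← av_comm, heH h hh]
  have hwA : av M w = 0 := by
    rw [hw, map_sub, map_smul, av_inv M (av M e) (fun m hm => av_M M e m hm), sub_self]
  have hw0 : w ≠ 0 := by
    intro h0
    apply hYM
    intro m hm y hy
    have h1 : (Fintype.card M : ℂ) • e = av M e := sub_eq_zero.1 h0
    have h2 : e = (Fintype.card M : ℂ)⁻¹ • av M e := by
      rw [← h1, smul_smul, inv_mul_cancel₀ hc, one_smul]
    have h3 : permRep G Ω m⁻¹ e = e := by
      rw [h2, map_smul, av_M M e m⁻¹ (M.inv_mem hm)]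
    have h4 := congrFun h3 y
    rw [permRep_apply, inv_inv] at h4
    by_contra hmy
    simp only [he, hy, hmy, if_true, if_false] at h4
    exact zero_ne_one h4
  -- the cyclic representation
  set X : Submodule ℂ (Ω → ℂ) := Submodule.span ℂ (Set.range fun g => permRep G Ω g w) with hX
  have hwX : w ∈ X := Submodule.subset_span ⟨1, by simp⟩
  have hXg : ∀ g, ∀ v ∈ X, permRep G Ω g v ∈ X := by
    intro g v hv
    have : X ≤ X.comap (permRep G Ω g) := by
      rw [hX, Submodule.span_le]
      rintro _ ⟨k, rfl⟩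
      apply Submodule.subset_span
      exact ⟨g * k, by simp [map_mul]⟩
    exact this hv
  have hXk : X ≤ LinearMap.ker (av M : (Ω → ℂ) →ₗ[ℂ] (Ω → ℂ)) := by
    rw [hX, Submodule.span_le]
    rintro _ ⟨k, rfl⟩
    change av M (permRep G Ω k w) = 0
    rw [av_comm, hwA, map_zero]
  let ρ := subRep (permRep G Ω) X hXg
  have hρ : ∀ g (x : X), ((ρ g x : X) : Ω → ℂ) = permRep G Ω g x := fun g x => rfl
  let w' : X := ⟨w, hwX⟩
  have hw' : w' ≠ 0 := fun h => hw0 (congrArg Subtype.val h)
  have hsp : Submodule.span ℂ (Set.range fun g => ρ g w') = ⊤ := by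
    have h1 : (Submodule.span ℂ (Set.range fun g => ρ g w')).map X.subtype = X := by
      rw [Submodule.map_span, ← Set.range_comp]
      rfl
    apply Submodule.map_injective_of_injective X.injective_subtype
    rw [h1, Submodule.map_top, Submodule.range_subtype]
  obtain ⟨Z, hZ, hwZ, hirr⟩ := exists_quot ρ w' hw' hsp
  set σ := quotRep ρ Z hZ with hσ
  have hσk : ∀ g (x : X), σ g (Z.mkQ x) = Z.mkQ (ρ g x) := fun g x => rfl
  -- `M` does not fix the image of `w`
  have hMw : ¬ ∀ m ∈ M, σ m (Z.mkQ w') = Z.mkQ w' := by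
    intro h
    apply hwZ
    have h1 : ∀ m : M, w' - ρ (m : G) w' ∈ Z := by
      intro m
      rw [← Submodule.Quotient.mk_eq_zero Z]
      change Z.mkQ (w' - ρ (m : G) w') = 0
      rw [map_sub, ← hσk, h m m.2, sub_self]
    have h2 : ∑ m : M, (w' - ρ (m : G) w') = (Fintype.card M : ℂ) • w' := by
      rw [Finset.sum_sub_distrib, Finset.sum_const, Finset.card_univ, Nat.cast_smul_eq_nsmul]
      have h3 : ∑ m : M, ρ (m : G) w' = 0 := by
        apply Subtype.ext
        rw [AddSubmonoidClass.coe_finsetSum]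
        simp only [hρ]
        rw [← av_apply]
        exact hwA
      rw [h3, sub_zero]
    have h4 : (Fintype.card M : ℂ) • w' ∈ Z := by
      rw [← h2]
      exact Submodule.sum_mem _ fun m _ => h1 m
    have h5 := Z.smul_mem (Fintype.card M : ℂ)⁻¹ h4
    rwa [smul_smul, inv_mul_cancel₀ hc, one_smul] at h5
  have hw'0 : Z.mkQ w' ≠ 0 := by
    intro h
    apply hwZ
    rw [← Submodule.Quotient.mk_eq_zero Z]
    exact h
  have hPC : PChar σ := by
    refine ⟨H, hH, occurs_of_fixed σ hirr H (Z.mkQ w') hw'0 ?_⟩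
    intro h hh
    rw [hσk]
    congr 1
    apply Subtype.ext
    rw [hρ]
    exact hwH h hh
  obtain ⟨U, v, hv0, hU, hspan, hdim⟩ := hG (X ⧸ Z) σ hirr hPC
  -- `N` acts trivially
  have hNσ : ∀ n ∈ N, ∀ x, σ n x = x := by
    intro n hn x
    obtain ⟨x, rfl⟩ := Submodule.mkQ_surjective Z x
    rw [hσk]
    congr 1
    apply Subtype.ext
    rw [hρ]
    ext y
    rw [permRep_apply, hN n⁻¹ (N.inv_mem hn)]
  refine ⟨N ⊔ U, le_sup_left, ?_, ?_⟩
  · intro hMU
    -- scalars
    let S : Subgroup G :=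
      { carrier := {g | ∃ c : ℂ, σ g v = c • v}
        mul_mem' := by
          rintro a b ⟨c, hc⟩ ⟨d, hd⟩
          refine ⟨d * c, ?_⟩
          rw [map_mul]
          change σ a (σ b v) = _
          rw [hd, map_smul, hc, smul_smul]
        one_mem' := ⟨1, by simp⟩
        inv_mem' := by
          rintro a ⟨c, hc⟩
          have hc0 : c ≠ 0 := by
            rintro rfl
            rw [zero_smul] at hc
            apply hv0
            have h1 : σ a⁻¹ (σ a v) = v := by
              change (σ a⁻¹ * σ a) v = v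
              rw [← map_mul, inv_mul_cancel, map_one]
              rfl
            rw [hc, map_zero] at h1
            exact h1.symm
          refine ⟨c⁻¹, ?_⟩
          have h1 : σ a⁻¹ (σ a v) = v := by
            change (σ a⁻¹ * σ a) v = v
            rw [← map_mul, inv_mul_cancel, map_one]
            rfl
          rw [hc, map_smul] at h1
          rw [← h1, smul_smul, inv_mul_cancel₀ hc0, one_smul, h1] }
    have hS : ∀ g, g ∈ S ↔ ∃ c : ℂ, σ g v = c • v := fun g => Iff.rfl
    let S1 : Subgroup G :=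
      { carrier := {g | σ g v = v}
        mul_mem' := by
          intro a b ha hb
          change (σ (a * b)) v = v
          rw [map_mul]
          change σ a (σ b v) = v
          rw [show σ b v = v from hb]
          exact ha
        one_mem' := by
          change σ 1 v = v
          rw [map_one]
          rfl
        inv_mem' := by
          intro a ha
          change σ a⁻¹ v = v
          have h1 : σ a⁻¹ (σ a v) = v := by
            change (σ a⁻¹ * σ a) v = v
            rw [← map_mul, inv_mul_cancel, map_one]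
            rfl
          rwa [show σ a v = v from ha] at h1 }
    have hS1 : ∀ g, g ∈ S1 ↔ σ g v = v := fun g => Iff.rfl
    have hNS1 : N ≤ S1 := fun n hn => hNσ n hn v
    have hMS : M ≤ S := by
      refine hMU.trans (sup_le ?_ hU)
      intro n hn
      exact ⟨1, by rw [hNσ n hn, one_smul]⟩
    have hcomm : ⁅M, M⁆ ≤ S1 := by
      rw [Subgroup.commutator_le]
      intro a ha b hb
      obtain ⟨c, hc⟩ := hMS ha
      obtain ⟨d, hd⟩ := hMS hb
      have h1 : σ (a * b) v = σ (b * a) v := by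
        rw [map_mul, map_mul]
        change σ a (σ b v) = σ b (σ a v)
        rw [hc, hd, map_smul, map_smul, hc, hd, smul_smul, smul_smul, mul_comm]
      -- the commutator acts trivially
      have h2 : (b * a) ∈ S := S.mul_mem (hMS hb) (hMS ha)
      obtain ⟨f, hf⟩ := S.inv_mem h2
      rw [hS1, commutatorElement_def]
      have h3 : a * b * a⁻¹ * b⁻¹ = (a * b) * (b * a)⁻¹ := by group
      rw [h3, map_mul]
      change σ (a * b) (σ (b * a)⁻¹ v) = v
      rw [hf, map_smul, h1, ← map_smul, ← hf]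
      change (σ (b * a) * σ (b * a)⁻¹) v = v
      rw [← map_mul, mul_inv_cancel, map_one]
      rfl
    have hMS1 : M ≤ S1 := hperf.trans (sup_le hcomm hNS1)
    apply hMw
    intro m hm
    have h5 : ∀ x : X ⧸ Z, σ m x = x := by
      have h6 : (⊤ : Submodule ℂ (X ⧸ Z)) ≤
          LinearMap.ker ((σ m : (X ⧸ Z) →ₗ[ℂ] (X ⧸ Z)) - LinearMap.id) := by
        rw [← hspan, Submodule.span_le]
        rintro _ ⟨g, rfl⟩
        rw [SetLike.mem_coe, LinearMap.mem_ker, LinearMap.sub_apply, LinearMap.id_apply,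
          sub_eq_zero]
        have h7 : g⁻¹ * m * g ∈ M := by
          have := (inferInstance : M.Normal).conj_mem m hm g⁻¹
          rwa [inv_inv] at this
        have h8 : σ (g⁻¹ * m * g) v = v := hMS1 h7
        have h9 : σ m (σ g v) = σ g (σ (g⁻¹ * m * g) v) := by
          change (σ m * σ g) v = (σ g * σ (g⁻¹ * m * g)) v
          rw [← map_mul, ← map_mul]
          congr 2
          group
        rw [h9, h8]
      intro x
      have := h6 (Submodule.mem_top : x ∈ ⊤)
      rw [LinearMap.mem_ker, LinearMap.sub_apply, LinearMap.id_apply, sub_eq_zero] at this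
      exact this
    exact h5 _
  · have h1 : (N ⊔ U).index ≤ U.index :=
      Nat.le_of_dvd (Nat.pos_of_ne_zero Subgroup.index_ne_zero_of_finite)
        (Subgroup.index_dvd_of_le le_sup_right)
    have h2 : Module.finrank ℂ (X ⧸ Z) ≤ Module.finrank ℂ X := Submodule.finrank_quotient_le Z
    have h3 : Module.finrank ℂ X ≤
        Module.finrank ℂ (LinearMap.ker (av M : (Ω → ℂ) →ₗ[ℂ] (Ω → ℂ))) :=
      Submodule.finrank_mono hXk
    have h4 := finrank_ker (Ω := Ω) M
    omega

theorem main_lt [Finite G] (hG : AllMonomial G) (N M : Subgroup G) [N.Normal] [M.Normal]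
    (hperf : M ≤ ⁅M, M⁆ ⊔ N) (H : Subgroup G) (hH : IsCoatom H)
    (Ω : Type) [Finite Ω] [Nonempty Ω] [MulAction G Ω] (hN : ∀ n ∈ N, ∀ x : Ω, n • x = x)
    (Y : Set Ω) (hY : ∀ h ∈ H, ∀ y ∈ Y, h • y ∈ Y) (hYM : ¬ ∀ m ∈ M, ∀ y ∈ Y, m • y ∈ Y) :
    ∃ U : Subgroup G, N ≤ U ∧ ¬ M ≤ U ∧ U.index < Nat.card Ω := by
  obtain ⟨U, h1, h2, h3⟩ := main hG N M hperf H hH Ω hN Y hY hYM
  refine ⟨U, h1, h2, lt_of_lt_of_le ?_ h3⟩
  have : Nonempty (MulAction.orbitRel.Quotient M Ω) := ⟨Quotient.mk _ (Classical.arbitrary Ω)⟩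
  have := Nat.card_pos (α := MulAction.orbitRel.Quotient M Ω)
  omega

end Pool.Agent.K1H67.PC
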