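import Pool.Agent.K1H67.PC.Sub

/-!
Product actions.
-/

set_option autoImplicit false

namespace Pool.Agent.K1H67.PC

open Finset

/-- a group acts on `Ω` with blocks `β = i` in product type: `T i` is trivial outside its block and
transitive on it, `y` is a section of the blocks, `N` acts trivially, `T i` is perfect modulo `N`,
and the size `m` of the blocks is the smallest index of proper subgroups of `T i` above `N` -/
structure ProdType (G : Type) [Group G] (N : Subgroup G) (ι Ω : Type) [MulAction G ι]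
    [MulAction G Ω] (β : Ω → ι) (y : ι → Ω) (T : ι → Subgroup G) (m : ℕ) : Prop where
  equiv : ∀ (g : G) (x : Ω), β (g • x) = g • β x
  sec : ∀ i, β (y i) = i
  conj : ∀ (g : G) (i : ι), ∀ t ∈ T i, g * t * g⁻¹ ∈ T (g • i)
  le : ∀ i, N ≤ T i
  triv : ∀ n ∈ N, ∀ x : Ω, n • x = x
  perf : ∀ i, T i ≤ ⁅T i, T i⁆ ⊔ N
  fix : ∀ i, ∀ t ∈ T i, ∀ x, β x ≠ i → t • x = x
  trans : ∀ i, ∀ x x', β x = i → β x' = i → ∃ t ∈ T i, t • x = x'
  card : ∀ i, Nat.card {x // β x = i} = m
  smallest : ∀ (i : ι) (S : Subgroup G), N ≤ S → S ≤ T i → ¬ T i ≤ S → m ≤ S.relIndex (T i)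

variable {G : Type} [Group G]

/-- the group algebra element -/
noncomputable def al [Fintype G] {ι : Type} [Fintype ι] (T : ι → Subgroup G) : G → ℂ :=
  open Classical in fun g =>
  (∑ i, ((if g = 1 then (1 : ℂ) else 0) - (if g ∈ T i then (Nat.card (T i) : ℂ)⁻¹ else 0))) -
    (if g = 1 then (1 : ℂ) else 0)

theorem al_sum [Fintype G] {ι : Type} [Fintype ι] (T : ι → Subgroup G) {W : Type}
    [AddCommGroup W] [Module ℂ W] (F : G → W) :
    open Classical in ∑ g, al T g • F g =
      ∑ i, (F 1 - (Nat.card (T i) : ℂ)⁻¹ • ∑ g ∈ univ.filter (fun g => g ∈ T i), F g) - F 1 := by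
  classical
  unfold al
  simp only [sub_smul, sum_smul, sum_sub_distrib]
  rw [sum_comm, sum_comm (s := univ) (t := univ)
    (f := fun (x : G) (i : ι) => (if x ∈ T i then (Nat.card (T i) : ℂ)⁻¹ else 0) • F x)]
  simp only [ite_smul, one_smul, zero_smul, sum_ite_eq', mem_univ, if_true, smul_sum, sum_filter]
  simp

theorem prod_case [Finite G] (hG : AllMonomial G) (N : Subgroup G) [N.Normal]
    (ι Ω : Type) [Finite ι] [Nonempty ι] [Finite Ω] [MulAction G ι]
    [MulAction.IsPretransitive G ι] [MulAction G Ω] (β : Ω → ι) (y : ι → Ω)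
    (T : ι → Subgroup G) (m : ℕ) (hm : 3 ≤ m) (hP : ProdType G N ι Ω β y T m)
    (H : Subgroup G) (hH : IsCoatom H) (hHy : ∀ h ∈ H, ∀ i, h • y i = y (h • i)) : False := by
  classical
  have : Fintype G := Fintype.ofFinite G
  have : Fintype ι := Fintype.ofFinite ι
  have : Fintype Ω := Fintype.ofFinite Ω
  have hmC : (m : ℂ) ≠ 0 := by
    have : m ≠ 0 := by omega
    exact_mod_cast this
  have hblock : ∀ i, (univ.filter (fun x => β x = i)).card = m := by
    intro i
    rw [← hP.card i, Nat.card_eq_fintype_card, Fintype.card_subtype]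
  -- `T i` acts trivially on `ι`
  have hTi : ∀ i, ∀ t ∈ T i, ∀ j : ι, t • j = j := by
    intro i t ht
    have h1 : ∀ j, j ≠ i → t • j = j := by
      intro j hj
      have h2 := hP.fix i t ht (y j) (by rwa [hP.sec])
      have h3 := hP.equiv t (y j)
      rw [h2, hP.sec] at h3
      exact h3.symm
    intro j
    by_cases hj : j = i
    · subst hj
      by_contra hne
      have h4 := h1 _ hne
      exact hne (MulAction.injective t h4)
    · exact h1 j hj
  -- block sums
  let s : ι → (Ω → ℂ) →ₗ[ℂ] ℂ := fun i =>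
    { toFun := fun f => ∑ x ∈ univ.filter (fun x => β x = i), f x
      map_add' := fun f g => by simp [sum_add_distrib]
      map_smul' := fun c f => by simp [mul_sum] }
  have hs : ∀ i f, s i f = ∑ x ∈ univ.filter (fun x => β x = i), f x := fun i f => rfl
  let L : Submodule ℂ (Ω → ℂ) := ⨅ i, LinearMap.ker (s i)
  have hLmem : ∀ f, f ∈ L ↔ ∀ i, s i f = 0 := by
    intro f
    simp [L, Submodule.mem_iInf]
  have hsg : ∀ (g : G) (i : ι) (f : Ω → ℂ), s i (permRep G Ω g f) = s (g⁻¹ • i) f := by
    intro g i f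
    rw [hs, hs]
    refine sum_bij' (fun x _ => g⁻¹ • x) (fun x _ => g • x) ?_ ?_ ?_ ?_ ?_
    · intro x hx
      rw [mem_filter] at hx ⊢
      exact ⟨mem_univ _, by rw [hP.equiv, hx.2]⟩
    · intro x hx
      rw [mem_filter] at hx ⊢
      exact ⟨mem_univ _, by rw [hP.equiv, hx.2, smul_inv_smul]⟩
    · intro x _
      exact smul_inv_smul g x
    · intro x _
      exact inv_smul_smul g x
    · intro x _
      rfl
  have hL : ∀ g, ∀ f ∈ L, permRep G Ω g f ∈ L := by
    intro g f hf
    rw [hLmem] at hf ⊢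
    intro i
    rw [hsg]
    exact hf _
  -- the vector
  let w : Ω → ℂ := fun x => (if x = y (β x) then (m : ℂ) else 0) - 1
  have hwL : w ∈ L := by
    rw [hLmem]
    intro i
    rw [hs]
    simp only [w, sum_sub_distrib, sum_const, hblock, nsmul_eq_mul, mul_one]
    have h1 : ∑ x ∈ univ.filter (fun x => β x = i), (if x = y (β x) then (m : ℂ) else 0) =
        ∑ x ∈ univ.filter (fun x => β x = i), (if x = y i then (m : ℂ) else 0) := by
      refine sum_congr rfl fun x hx => ?_
      rw [(mem_filter.1 hx).2]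
    rw [h1, sum_ite_eq', if_pos (by simp [hP.sec]), sub_self]
  have hw0 : w ≠ 0 := by
    intro h0
    obtain ⟨i⟩ := (inferInstance : Nonempty ι)
    have h1 := congrFun h0 (y i)
    simp only [w, hP.sec, if_true, Pi.zero_apply] at h1
    have h2 : (m : ℂ) = ((1 : ℕ) : ℂ) := by
      push_cast
      linear_combination h1
    have h3 : m = 1 := by exact_mod_cast h2
    omega
  have hwH : ∀ h ∈ H, permRep G Ω h w = w := by
    intro h hh
    ext x
    rw [permRep_apply]
    have h1 : (h⁻¹ • x = y (β (h⁻¹ • x))) ↔ (x = y (β x)) := by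
      rw [hP.equiv, ← hHy h⁻¹ (H.inv_mem hh)]
      exact ⟨fun h2 => MulAction.injective h⁻¹ h2, fun h2 => by rw [← h2]⟩
    simp only [w, h1]
  obtain ⟨V, _, _, _, σ, ⟨U, v, hv0, hU, hspan, hdim⟩, hfin, hid⟩ :=
    exists_V hG H hH Ω L hL w hwL hw0 hwH
  -- dimensions
  have hcardΩ : Fintype.card Ω = Fintype.card ι * m := by
    rw [← Fintype.card_congr (Equiv.sigmaFiberEquiv β), Fintype.card_sigma]
    have : ∀ i, Fintype.card {x // β x = i} = m := fun i => by
      rw [← hP.card i, Nat.card_eq_fintype_card]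
    simp only [this, sum_const, card_univ, smul_eq_mul]
  have hLlt : Module.finrank ℂ L < Fintype.card Ω := by
    rw [← Module.finrank_fintype_fun_eq_card (R := ℂ) (η := Ω)]
    apply Submodule.finrank_lt
    intro htop
    obtain ⟨i⟩ := (inferInstance : Nonempty ι)
    have h1 : (fun _ => 1 : Ω → ℂ) ∈ L := by rw [htop]; trivial
    rw [hLmem] at h1
    have h2 := h1 i
    rw [hs, sum_const, hblock, nsmul_eq_mul, mul_one] at h2
    exact hmC h2
  -- `N` acts trivially
  have hNv : ∀ n ∈ N, ∀ x : V, σ n x = x := by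
    intro n hn x
    have h1 := hid (fun g => (if g = n then (1 : ℂ) else 0) - (if g = 1 then (1 : ℂ) else 0)) (by
      intro f _
      simp only [sub_smul, ite_smul, one_smul, zero_smul, sum_sub_distrib, sum_ite_eq', mem_univ,
        if_true, map_one]
      ext z
      rw [Pi.sub_apply, permRep_apply, hP.triv n⁻¹ (N.inv_mem hn)]
      simp) x
    simp only [sub_smul, ite_smul, one_smul, zero_smul, sum_sub_distrib, sum_ite_eq', mem_univ,
        if_true, map_one] at h1
    exact sub_eq_zero.1 h1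
  -- the identity
  have hcT : ∀ i, (Nat.card (T i) : ℂ) ≠ 0 := fun i => by
    exact_mod_cast Nat.card_pos.ne'
  have hcard' : ∀ i, (univ.filter (fun g => g ∈ T i)).card = Nat.card (T i) := by
    intro i
    rw [Nat.card_eq_fintype_card, Fintype.card_subtype]
  have hZ : ∀ f ∈ L, ∀ x, ∑ g ∈ univ.filter (fun g => g ∈ T (β x)), f (g⁻¹ • x) = 0 := by
    intro f hf x
    set i := β x with hi
    let F : Ω → ℂ := fun z => ∑ g ∈ univ.filter (fun g => g ∈ T i), f (g⁻¹ • z)
    have hF1 : ∀ t ∈ T i, ∀ z, F (t • z) = F z := by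
      intro t ht z
      refine sum_bij' (fun g _ => t⁻¹ * g) (fun g _ => t * g) ?_ ?_ ?_ ?_ ?_
      · intro g hg
        rw [mem_filter] at hg ⊢
        exact ⟨mem_univ _, (T i).mul_mem ((T i).inv_mem ht) hg.2⟩
      · intro g hg
        rw [mem_filter] at hg ⊢
        exact ⟨mem_univ _, (T i).mul_mem ht hg.2⟩
      · intro g _
        exact mul_inv_cancel_left t g
      · intro g _
        exact inv_mul_cancel_left t g
      · intro g _
        rw [mul_inv_rev, inv_inv, mul_smul]
    have hF2 : ∀ z, β z = i → F z = F x := by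
      intro z hz
      obtain ⟨t, ht, htz⟩ := hP.trans i x z hi.symm hz
      rw [← htz, hF1 t ht]
    have hF3 : ∑ z ∈ univ.filter (fun z => β z = i), F z = 0 := by
      simp only [F]
      rw [sum_comm]
      refine sum_eq_zero fun g hg => ?_
      have h1 := (hLmem _).1 (hL g f hf) i
      rw [hs] at h1
      exact h1
    have hF4 : ∑ z ∈ univ.filter (fun z => β z = i), F z = m * F x := by
      rw [sum_congr rfl (fun z hz => hF2 z (mem_filter.1 hz).2), sum_const, hblock,
        nsmul_eq_mul]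
    rw [hF4] at hF3
    exact (mul_eq_zero.1 hF3).resolve_left hmC
  have hkey := hid (al T) (by
    intro f hf
    rw [al_sum]
    rw [map_one]
    ext x
    rw [Pi.sub_apply, Finset.sum_apply]
    change ∑ i, (f x - ((Nat.card (T i) : ℂ)⁻¹ •
      ∑ g ∈ univ.filter (fun g => g ∈ T i), permRep G Ω g f) x) - f x = 0
    rw [sum_eq_single (β x)]
    · rw [Pi.smul_apply, Finset.sum_apply]
      simp only [permRep_apply]
      rw [hZ f hf x, smul_zero, sub_zero, sub_self]
    · intro i _ hi
      rw [Pi.smul_apply, Finset.sum_apply]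
      simp only [permRep_apply]
      have h1 : ∀ g ∈ univ.filter (fun g => g ∈ T i), f (g⁻¹ • x) = f x := by
        intro g hg
        rw [hP.fix i g⁻¹ ((T i).inv_mem (mem_filter.1 hg).2) x (Ne.symm hi)]
      rw [sum_congr rfl h1, sum_const, hcard', nsmul_eq_mul, smul_eq_mul, ← mul_assoc,
        inv_mul_cancel₀ (hcT i), one_mul, sub_self]
    · intro h
      exact absurd (mem_univ _) h) v
  rw [al_sum, map_one] at hkey
  obtain ⟨φ, hφv, hφ0⟩ := exists_coef σ U v hU hspan hdim
  have hkey2 := congrArg φ (sub_eq_zero.1 hkey)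
  rw [map_sum] at hkey2
  change ∑ i, φ (v - (Nat.card (T i) : ℂ)⁻¹ • ∑ g ∈ univ.filter (fun g => g ∈ T i), σ g v) =
    φ v at hkey2
  simp only [map_sub, map_smul, map_sum, hφv] at hkey2
  -- bounds
  have hNU : N ≤ U := by
    intro n hn
    by_contra hnU
    have h1 := hφ0 n hnU
    rw [hNv n hn, hφv] at h1
    exact one_ne_zero h1
  have hnorm : ∀ g, ‖φ (σ g v)‖ ≤ if g ∈ U then 1 else 0 := by
    intro g
    split_ifs with hg
    · obtain ⟨c, hc⟩ := hU g hg
      have h1 : ∀ n : ℕ, σ (g ^ n) v = c ^ n • v := by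
        intro n
        induction n with
        | zero => simp
        | succ n ih =>
          rw [pow_succ, map_mul]
          change σ (g ^ n) (σ g v) = _
          rw [hc, map_smul, ih, smul_smul, pow_succ, mul_comm]
      have h2 := h1 (orderOf g)
      rw [pow_orderOf_eq_one, map_one] at h2
      have h3 := congrArg φ h2
      change φ v = _ at h3
      rw [map_smul, hφv, smul_eq_mul, mul_one] at h3
      have h4 : ‖c‖ ^ orderOf g = 1 := by rw [← norm_pow, ← h3, norm_one]
      have h5 : ‖c‖ = 1 := (pow_eq_one_iff_of_nonneg (norm_nonneg c) (orderOf_pos g).ne').1 h4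
      rw [hc, map_smul, hφv, smul_eq_mul, mul_one, h5]
    · rw [hφ0 g hg, norm_zero]
  have hin : ∀ i, T i ≤ U →
      (Nat.card (T i) : ℂ)⁻¹ • ∑ g ∈ univ.filter (fun g => g ∈ T i), φ (σ g v) = 1 := by
    intro i hi
    have h1 := triv_of_scalar σ N (T i) (hP.perf i) v (fun n hn => hNv n hn v)
      (fun t ht => hU t (hi ht))
    rw [sum_congr rfl (fun g hg => by rw [h1 g (mem_filter.1 hg).2, hφv]), sum_const, hcard',
      nsmul_eq_mul, mul_one, smul_eq_mul, inv_mul_cancel₀ (hcT i)]
  have hrel : ∀ i, ¬ T i ≤ U → m ≤ U.relIndex (T i) := by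
    intro i hi
    have h1 := hP.smallest i (U ⊓ T i) (le_inf hNU (hP.le i)) inf_le_right
      (fun h => hi (h.trans inf_le_left))
    rwa [Subgroup.inf_relIndex_right] at h1
  have hout : ∀ i, ¬ T i ≤ U →
      ‖(Nat.card (T i) : ℂ)⁻¹ • ∑ g ∈ univ.filter (fun g => g ∈ T i), φ (σ g v)‖ ≤ 1 / 3 := by
    intro i hi
    have h1 : ‖∑ g ∈ univ.filter (fun g => g ∈ T i), φ (σ g v)‖ ≤
        ((Nat.card (U.subgroupOf (T i)) : ℕ) : ℝ) := by
      refine (norm_sum_le _ _).trans ((sum_le_sum fun g _ => hnorm g).trans ?_)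
      rw [sum_ite, sum_const_zero, add_zero, sum_const, nsmul_eq_mul, mul_one, filter_filter]
      have h2 : (univ.filter (fun g => g ∈ T i ∧ g ∈ U)).card =
          Nat.card (U.subgroupOf (T i)) := by
        let e : {g : G // g ∈ T i ∧ g ∈ U} ≃ U.subgroupOf (T i) :=
          { toFun := fun g => ⟨⟨g.1, g.2.1⟩, g.2.2⟩
            invFun := fun g => ⟨g.1.1, g.1.2, g.2⟩
            left_inv := fun _ => rfl
            right_inv := fun _ => rfl }
        rw [← Nat.card_congr e, Nat.card_eq_fintype_card, Fintype.card_subtype]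
      rw [h2]
    have h3 : Nat.card (U.subgroupOf (T i)) * U.relIndex (T i) = Nat.card (T i) :=
      Subgroup.card_mul_index _
    have h4 : (3 : ℝ) * (Nat.card (U.subgroupOf (T i)) : ℕ) ≤ (Nat.card (T i) : ℕ) := by
      have h5 : 3 * Nat.card (U.subgroupOf (T i)) ≤ Nat.card (T i) := by
        rw [← h3, mul_comm]
        exact Nat.mul_le_mul_left _ (hm.trans (hrel i hi))
      exact_mod_cast h5
    have h6 : (0 : ℝ) < (Nat.card (T i) : ℕ) := by exact_mod_cast Nat.card_pos
    rw [norm_smul, norm_inv, Complex.norm_natCast, inv_mul_le_iff₀ h6]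
    linarith
  -- exactly one `i`
  set a : ι → ℂ := fun i =>
    (Nat.card (T i) : ℂ)⁻¹ • ∑ g ∈ univ.filter (fun g => g ∈ T i), φ (σ g v) with ha
  have hsum : ∑ i ∈ univ.filter (fun i => ¬ T i ≤ U), (1 - (a i).re) = 1 := by
    have h1 := congrArg Complex.re hkey2
    rw [Complex.re_sum, Complex.one_re] at h1
    refine Eq.trans ?_ h1
    rw [sum_filter]
    refine sum_congr rfl fun i _ => ?_
    by_cases h : T i ≤ U
    · rw [if_neg (not_not.2 h), Complex.sub_re, Complex.one_re, hin i h,
        Complex.one_re, sub_self]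
    · rw [if_pos h, Complex.sub_re, Complex.one_re]
  have hge : ∀ i ∈ univ.filter (fun i => ¬ T i ≤ U), (2 / 3 : ℝ) ≤ 1 - (a i).re := by
    intro i hi
    have h1 := hout i (mem_filter.1 hi).2
    have h2 := (Complex.abs_re_le_norm (a i)).trans h1
    have h3 := (abs_le.1 h2).2
    linarith
  have hcard1 : (univ.filter (fun i => ¬ T i ≤ U)).card = 1 := by
    have h1 := card_nsmul_le_sum _ _ _ hge
    rw [hsum, nsmul_eq_mul] at h1
    have h2 : (univ.filter (fun i => ¬ T i ≤ U)).card < 2 := by
      by_contra h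
      push Not at h
      have : (2 : ℝ) ≤ ((univ.filter (fun i => ¬ T i ≤ U)).card : ℝ) := by exact_mod_cast h
      linarith
    have h3 : (univ.filter (fun i => ¬ T i ≤ U)).card ≠ 0 := by
      intro h
      rw [card_eq_zero] at h
      rw [h, sum_empty] at hsum
      exact zero_ne_one hsum
    omega
  obtain ⟨i0, hi0⟩ := card_eq_one.1 hcard1
  have hi0U : ¬ T i0 ≤ U := by
    have : i0 ∈ univ.filter (fun i => ¬ T i ≤ U) := by rw [hi0]; simp
    exact (mem_filter.1 this).2
  have huniq : ∀ i, ¬ T i ≤ U → i = i0 := by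
    intro i hi
    have : i ∈ univ.filter (fun i => ¬ T i ≤ U) := by simp [hi]
    rw [hi0, mem_singleton] at this
    exact this
  have hUst : U ≤ MulAction.stabilizer G i0 := by
    intro u hu
    rw [MulAction.mem_stabilizer_iff]
    apply huniq
    intro h
    apply hi0U
    intro t ht
    have h1 := h (hP.conj u i0 t ht)
    have h2 : t = u⁻¹ * (u * t * u⁻¹) * u := by group
    rw [h2]
    exact U.mul_mem (U.mul_mem (U.inv_mem hu) h1) hu
  have hTst : T i0 ≤ MulAction.stabilizer G i0 := fun t ht => hTi i0 t ht i0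
  have h1 : U.relIndex (MulAction.stabilizer G i0) * (MulAction.stabilizer G i0).index =
      U.index := Subgroup.relIndex_mul_index hUst
  have h2 : (MulAction.stabilizer G i0).index = Fintype.card ι := by
    rw [MulAction.index_stabilizer_of_transitive, Nat.card_eq_fintype_card]
  have h3 : U.relIndex (T i0) ≤ U.relIndex (MulAction.stabilizer G i0) :=
    Subgroup.relIndex_le_of_le_right hTst (Subgroup.index_ne_zero_of_finite (H := U.subgroupOf _))
  have h4 := hrel i0 hi0U
  have h5 : m * Fintype.card ι ≤ U.index := by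
    rw [← h1, h2]
    exact Nat.mul_le_mul_right _ (h4.trans h3)
  rw [← hdim] at h5
  have h6 : Fintype.card ι * m = m * Fintype.card ι := mul_comm _ _
  omega

end Pool.Agent.K1H67.PC
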