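import Pool.Agent.K1H67.PC.Defs

/-!
Elementary representation theory.
-/

set_option autoImplicit false

namespace Pool.Agent.K1H67.PC

variable {G V : Type} [Group G] [AddCommGroup V] [Module ℂ V]

/-- restriction to an invariant subspace -/
def subRep (ρ : Representation ℂ G V) (X : Submodule ℂ V) (hX : ∀ g, ∀ v ∈ X, ρ g v ∈ X) :
    Representation ℂ G X where
  toFun g := (ρ g).restrict (hX g)
  map_one' := by
    ext x
    simp
  map_mul' g h := by
    ext x
    simp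

/-- the quotient by an invariant subspace -/
def quotRep (ρ : Representation ℂ G V) (X : Submodule ℂ V) (hX : ∀ g, ∀ v ∈ X, ρ g v ∈ X) :
    Representation ℂ G (V ⧸ X) where
  toFun g := X.mapQ X (ρ g) (fun v hv => hX g v hv)
  map_one' := by
    ext x
    simp
  map_mul' g h := by
    ext x
    simp

theorem quotRep_mk (ρ : Representation ℂ G V) (X : Submodule ℂ V)
    (hX : ∀ g, ∀ v ∈ X, ρ g v ∈ X) (g : G) (v : V) :
    quotRep ρ X hX g (X.mkQ v) = X.mkQ (ρ g v) := rfl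

/-- a cyclic representation has an irreducible quotient -/
theorem exists_quot [FiniteDimensional ℂ V] (ρ : Representation ℂ G V) (w : V) (hw : w ≠ 0)
    (hs : Submodule.span ℂ (Set.range fun g => ρ g w) = ⊤) :
    ∃ (Z : Submodule ℂ V) (hZ : ∀ g, ∀ v ∈ Z, ρ g v ∈ Z), w ∉ Z ∧ Irred (quotRep ρ Z hZ) := by
  classical
  let P : Submodule ℂ V → Prop := fun S => (∀ g, ∀ v ∈ S, ρ g v ∈ S) ∧ w ∉ S
  have hP : ∃ S, P S := ⟨⊥, fun g v hv => by
    rw [Submodule.mem_bot] at hv ⊢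
    rw [hv, map_zero], by rwa [Submodule.mem_bot]⟩
  obtain ⟨Z, hZ, hmax⟩ := WellFounded.has_min
    (wellFounded_gt : WellFounded (fun a b : Submodule ℂ V => a > b)) {S | P S} hP
  refine ⟨Z, hZ.1, hZ.2, ?_, ?_⟩
  · refine ⟨⟨0, Z.mkQ w, ?_⟩⟩
    intro h
    apply hZ.2
    rw [← Submodule.Quotient.mk_eq_zero Z]
    exact h.symm
  · intro S hS
    have h1 : ∀ g, ∀ v ∈ S.comap Z.mkQ, ρ g v ∈ S.comap Z.mkQ := by
      intro g v hv
      rw [Submodule.mem_comap] at hv ⊢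
      rw [← quotRep_mk ρ Z hZ.1]
      exact hS g _ hv
    have h2 : Z ≤ S.comap Z.mkQ := by
      intro z hz
      rw [Submodule.mem_comap]
      have : Z.mkQ z = 0 := by rwa [Submodule.mkQ_apply, Submodule.Quotient.mk_eq_zero]
      rw [this]
      exact S.zero_mem
    have h3 : S = (S.comap Z.mkQ).map Z.mkQ :=
      (Submodule.map_comap_eq_of_surjective (Submodule.mkQ_surjective Z) S).symm
    by_cases hwS : w ∈ S.comap Z.mkQ
    · right
      have h4 : S.comap Z.mkQ = ⊤ := by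
        rw [eq_top_iff, ← hs, Submodule.span_le]
        rintro _ ⟨g, rfl⟩
        exact h1 g w hwS
      rw [h3, h4, Submodule.map_top, Submodule.range_mkQ]
    · left
      have h5 : ¬ S.comap Z.mkQ > Z := hmax _ ⟨h1, hwS⟩
      have h6 : S.comap Z.mkQ = Z := by
        by_contra hne
        exact h5 (lt_of_le_of_ne h2 (Ne.symm hne))
      rw [h3, h6]
      exact Submodule.mkQ_map_self Z

/-- Frobenius reciprocity for the trivial character of `H` -/
theorem occurs_of_fixed [Finite G] [FiniteDimensional ℂ V] (ρ : Representation ℂ G V)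
    (hρ : Irred ρ) (H : Subgroup G) (v : V) (hv : v ≠ 0) (hH : ∀ h ∈ H, ρ h v = v) :
    Occurs H ρ := by
  classical
  have : Fintype H := Fintype.ofFinite H
  obtain ⟨φ, hφ⟩ : ∃ φ : Module.Dual ℂ V, φ v ≠ 0 := by
    by_contra h
    push Not at h
    exact hv ((Module.forall_dual_apply_eq_zero_iff ℂ v).1 h)
  let ψ : V →ₗ[ℂ] ℂ := ∑ h : H, φ ∘ₗ (ρ (h : G))
  have hψ : ∀ x, ψ x = ∑ h : H, φ (ρ (h : G) x) := fun x => by
    simp [ψ]
  have hψH : ∀ h ∈ H, ∀ x, ψ (ρ h x) = ψ x := by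
    intro h hh x
    rw [hψ, hψ]
    have : ∀ k : H, φ (ρ (k : G) (ρ h x)) = φ (ρ ((k * ⟨h, hh⟩ : H) : G) x) := by
      intro k
      rw [Subgroup.coe_mul, map_mul]
      rfl
    simp only [this]
    exact Equiv.sum_comp (Equiv.mulRight (⟨h, hh⟩ : H)) (fun k : H => φ (ρ (k : G) x))
  have hψv : ψ v ≠ 0 := by
    rw [hψ]
    have : ∀ k : H, φ (ρ (k : G) v) = φ v := fun k => by rw [hH k k.2]
    simp only [this, Finset.sum_const, Finset.card_univ, nsmul_eq_mul]
    exact mul_ne_zero (by exact_mod_cast Fintype.card_ne_zero) hφ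
  let Φ : V →ₗ[ℂ] (G ⧸ H → ℂ) := LinearMap.pi fun q => ψ ∘ₗ (ρ (q.out)⁻¹)
  have hΦ : ∀ x q, Φ x q = ψ (ρ (q.out)⁻¹ x) := fun x q => rfl
  have hΦg : ∀ x (g : G), Φ x (g : G ⧸ H) = ψ (ρ g⁻¹ x) := by
    intro x g
    rw [hΦ]
    obtain ⟨h, hh⟩ := QuotientGroup.mk_out_eq_mul H g
    rw [hh, mul_inv_rev, map_mul]
    exact hψH _ (H.inv_mem h.2) _
  have hint : ∀ (g : G) (x : V) (q : G ⧸ H), Φ (ρ g x) q = Φ x (g⁻¹ • q) := by
    intro g x q
    obtain ⟨k, rfl⟩ := QuotientGroup.mk_surjective q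
    have : (g⁻¹ • (QuotientGroup.mk k : G ⧸ H)) = (QuotientGroup.mk (g⁻¹ * k) : G ⧸ H) := rfl
    rw [this, hΦg, hΦg, mul_inv_rev, inv_inv, map_mul]
    rfl
  refine ⟨Φ, ?_, hint⟩
  rw [← LinearMap.ker_eq_bot]
  rcases hρ.2 (LinearMap.ker Φ) (by
    intro g x hx
    rw [LinearMap.mem_ker] at hx ⊢
    ext q
    rw [hint, hx]
    rfl) with h | h
  · exact h
  · exfalso
    have h0 : Φ v = 0 := by
      have : v ∈ LinearMap.ker Φ := by rw [h]; trivial
      exact this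
    apply hψv
    have := hΦg v 1
    rw [h0] at this
    simpa using this.symm

end Pool.Agent.K1H67.PC
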