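import Pool.Agent.K1H67.PC.Main

/-!
Subquotients of permutation representations, monomial representations.
-/

set_option autoImplicit false

namespace Pool.Agent.K1H67.PC

variable {G : Type} [Group G]

/-- an irreducible monomial subquotient of an invariant space of functions -/
theorem exists_V [Finite G] [Fintype G] (hG : AllMonomial G) (H : Subgroup G) (hH : IsCoatom H)
    (Ω : Type) [Finite Ω] [MulAction G Ω] (L : Submodule ℂ (Ω → ℂ))
    (hL : ∀ g, ∀ f ∈ L, permRep G Ω g f ∈ L) (w : Ω → ℂ) (hwL : w ∈ L) (hw0 : w ≠ 0)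
    (hwH : ∀ h ∈ H, permRep G Ω h w = w) :
    ∃ (V : Type) (_ : AddCommGroup V) (_ : Module ℂ V) (_ : FiniteDimensional ℂ V)
      (σ : Representation ℂ G V), Monomial σ ∧ Module.finrank ℂ V ≤ Module.finrank ℂ L ∧
      ∀ a : G → ℂ, (∀ f ∈ L, ∑ g, a g • permRep G Ω g f = 0) → ∀ x : V, ∑ g, a g • σ g x = 0 := by
  classical
  set X : Submodule ℂ (Ω → ℂ) := Submodule.span ℂ (Set.range fun g => permRep G Ω g w) with hX
  have hwX : w ∈ X := Submodule.subset_span ⟨1, by simp⟩
  have hXg : ∀ g, ∀ v ∈ X, permRep G Ω g v ∈ X := by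
    intro g v hv
    have : X ≤ X.comap (permRep G Ω g) := by
      rw [hX, Submodule.span_le]
      rintro _ ⟨k, rfl⟩
      apply Submodule.subset_span
      exact ⟨g * k, by simp [map_mul]⟩
    exact this hv
  have hXL : X ≤ L := by
    rw [hX, Submodule.span_le]
    rintro _ ⟨k, rfl⟩
    exact hL k w hwL
  let ρ := subRep (permRep G Ω) X hXg
  have hρ : ∀ g (x : X), ((ρ g x : X) : Ω → ℂ) = permRep G Ω g x := fun g x => rfl
  let w' : X := ⟨w, hwX⟩
  have hw' : w' ≠ 0 := fun h => hw0 (congrArg Subtype.val h)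
  have hsp : Submodule.span ℂ (Set.range fun g => ρ g w') = ⊤ := by
    have h1 : (Submodule.span ℂ (Set.range fun g => ρ g w')).map X.subtype = X := by
      rw [Submodule.map_span, ← Set.range_comp]
      rfl
    apply Submodule.map_injective_of_injective X.injective_subtype
    rw [h1, Submodule.map_top, Submodule.range_subtype]
  obtain ⟨Z, hZ, hwZ, hirr⟩ := exists_quot ρ w' hw' hsp
  set σ := quotRep ρ Z hZ with hσ
  have hσk : ∀ g (x : X), σ g (Z.mkQ x) = Z.mkQ (ρ g x) := fun g x => rfl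
  have hw'0 : Z.mkQ w' ≠ 0 := by
    intro h
    apply hwZ
    rw [← Submodule.Quotient.mk_eq_zero Z]
    exact h
  have hPC : PChar σ := by
    refine ⟨H, hH, occurs_of_fixed σ hirr H (Z.mkQ w') hw'0 ?_⟩
    intro h hh
    rw [hσk]
    congr 1
    apply Subtype.ext
    rw [hρ]
    exact hwH h hh
  refine ⟨X ⧸ Z, inferInstance, inferInstance, inferInstance, σ, hG (X ⧸ Z) σ hirr hPC,
    (Submodule.finrank_quotient_le Z).trans (Submodule.finrank_mono hXL), ?_⟩
  intro a ha x
  obtain ⟨x, rfl⟩ := Submodule.mkQ_surjective Z x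
  have h1 : ∑ g, a g • σ g (Z.mkQ x) = Z.mkQ (∑ g, a g • ρ g x) := by
    rw [map_sum]
    refine Finset.sum_congr rfl fun g _ => ?_
    rw [hσk, map_smul]
  have h2 : ∑ g, a g • ρ g x = 0 := by
    apply Subtype.ext
    have h3 := ha x (hXL x.2)
    simpa [hρ] using h3
  rw [h1, h2, map_zero]

variable {V : Type} [AddCommGroup V] [Module ℂ V]

/-- the coefficient at the line of `v` -/
theorem exists_coef [Finite G] [FiniteDimensional ℂ V] (σ : Representation ℂ G V)
    (U : Subgroup G) (v : V) (hU : ∀ u ∈ U, ∃ c : ℂ, σ u v = c • v)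
    (hspan : Submodule.span ℂ (Set.range fun g => σ g v) = ⊤)
    (hdim : Module.finrank ℂ V = U.index) :
    ∃ φ : V →ₗ[ℂ] ℂ, φ v = 1 ∧ ∀ g, g ∉ U → φ (σ g v) = 0 := by
  classical
  have : Fintype (G ⧸ U) := Fintype.ofFinite _
  let b : G ⧸ U → V := fun q => σ q.out v
  have hb : ∀ g : G, ∃ c : ℂ, σ g v = c • b (g : G ⧸ U) := by
    intro g
    obtain ⟨u, hu⟩ := QuotientGroup.mk_out_eq_mul U g
    obtain ⟨c, hc⟩ := hU _ (U.inv_mem u.2)
    refine ⟨c, ?_⟩
    have h1 : g = (g : G ⧸ U).out * (u : G)⁻¹ := by rw [hu]; group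
    change σ g v = c • σ ((g : G ⧸ U).out) v
    conv_lhs => rw [h1]
    rw [map_mul]
    change σ _ (σ _ v) = _
    rw [hc, map_smul]
  have hli : LinearIndependent ℂ b := by
    apply linearIndependent_of_top_le_span_of_card_eq_finrank
    · rw [← hspan, Submodule.span_le]
      rintro _ ⟨g, rfl⟩
      obtain ⟨c, hc⟩ := hb g
      change σ g v ∈ _
      rw [hc]
      exact Submodule.smul_mem _ _ (Submodule.subset_span ⟨_, rfl⟩)
    · rw [hdim, ← Nat.card_eq_fintype_card]
      rfl
  have hcard : Fintype.card (G ⧸ U) = Module.finrank ℂ V := by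
    rw [hdim, ← Nat.card_eq_fintype_card]
    rfl
  have : Nonempty (G ⧸ U) := ⟨((1 : G) : G ⧸ U)⟩
  let B := basisOfLinearIndependentOfCardEqFinrank hli hcard
  have hB : ∀ q, B q = b q := fun q => by
    rw [coe_basisOfLinearIndependentOfCardEqFinrank]
  obtain ⟨c, hc⟩ := hb 1
  rw [map_one] at hc
  change v = _ at hc
  have hc0 : c ≠ 0 := by
    rintro rfl
    rw [zero_smul] at hc
    have h1 := hli.ne_zero (((1 : G) : G ⧸ U))
    apply h1
    change σ _ v = 0
    rw [hc, map_zero]
  refine ⟨c⁻¹ • B.coord ((1 : G) : G ⧸ U), ?_, ?_⟩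
  · rw [LinearMap.smul_apply]
    conv_lhs => rw [hc]
    rw [← hB, map_smul, Module.Basis.coord_apply, Module.Basis.repr_self, Finsupp.single_eq_same]
    simp [hc0]
  · intro g hg
    obtain ⟨d, hd⟩ := hb g
    rw [LinearMap.smul_apply, hd, ← hB, map_smul, Module.Basis.coord_apply,
      Module.Basis.repr_self, Finsupp.single_eq_of_ne]
    · simp
    · intro h
      apply hg
      have h2 := QuotientGroup.eq.1 h
      simpa using h2

/-- scalar actions of perfect groups are trivial -/
theorem triv_of_scalar (σ : Representation ℂ G V) (N T : Subgroup G) (hT : T ≤ ⁅T, T⁆ ⊔ N)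
    (v : V) (hN : ∀ n ∈ N, σ n v = v) (hs : ∀ t ∈ T, ∃ c : ℂ, σ t v = c • v) :
    ∀ t ∈ T, σ t v = v := by
  have hinv : ∀ a : G, σ a⁻¹ (σ a v) = v := by
    intro a
    change (σ a⁻¹ * σ a) v = v
    rw [← map_mul, inv_mul_cancel, map_one]
    rfl
  let S1 : Subgroup G :=
    { carrier := {g | σ g v = v}
      mul_mem' := by
        intro a b ha hb
        change (σ (a * b)) v = v
        rw [map_mul]
        change σ a (σ b v) = v
        rw [show σ b v = v from hb]
        exact ha
      one_mem' := by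
        change σ 1 v = v
        rw [map_one]
        rfl
      inv_mem' := by
        intro a ha
        change σ a⁻¹ v = v
        have h1 := hinv a
        rwa [show σ a v = v from ha] at h1 }
  have hcomm : ⁅T, T⁆ ≤ S1 := by
    rw [Subgroup.commutator_le]
    intro a ha b hb
    obtain ⟨c, hc⟩ := hs a ha
    obtain ⟨d, hd⟩ := hs b hb
    have h1 : σ (a * b) v = σ (b * a) v := by
      rw [map_mul, map_mul]
      change σ a (σ b v) = σ b (σ a v)
      rw [hc, hd, map_smul, map_smul, hc, hd, smul_smul, smul_smul, mul_comm]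
    have h2 : (b * a)⁻¹ ∈ T := T.inv_mem (T.mul_mem hb ha)
    obtain ⟨f, hf⟩ := hs _ h2
    rw [commutatorElement_def]
    change σ (a * b * a⁻¹ * b⁻¹) v = v
    have h3 : a * b * a⁻¹ * b⁻¹ = (a * b) * (b * a)⁻¹ := by group
    rw [h3, map_mul]
    change σ (a * b) (σ (b * a)⁻¹ v) = v
    rw [hf, map_smul, h1, ← map_smul, ← hf]
    change (σ (b * a) * σ (b * a)⁻¹) v = v
    rw [← map_mul, mul_inv_cancel, map_one]
    rfl
  have hfin : T ≤ S1 := hT.trans (sup_le hcomm fun n hn => hN n hn)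
  exact fun t ht => hfin ht

end Pool.Agent.K1H67.PC
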